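import Pool.Agent.Helper78.RC.Types

/-!
A set which is not null and whose number of representations is bounded in mean square: the numbers
of classes of residual sets up to null sets along a chain of moduli satisfy `∑ 1 / c j ^ 2 < ∞`.
-/

set_option autoImplicit false

open Finset Filter

namespace Pool.Agent.Helper78.RC

open Pool.Agent.Helper25.RC
open Pool.Agent.Helper3.RC (Chain chain_energy)

/-- up to null sets, the residual sets of `A` modulo `q` which are not null are among at most `k`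
sets -/
def NTypesLE (A : Set ℕ) (q k : ℕ) : Prop :=
  ∃ F : Finset (Set ℕ), #F ≤ k ∧
    ∀ r < q, Null (res A q r) ∨ ∃ T ∈ F, Null (symmDiff (res A q r) T)

/-- two residual sets which are equal up to a null set -/
theorem fibre_diff (A : Set ℕ) {q r r' x : ℕ} (hr' : r' < q) :
    #{n ∈ range x | q * n + r ∈ below A x ∧ q * n + r' ∉ below A x} ≤
      #(below (symmDiff (res A q r) (res A q r')) x) + 1 := by
  classical
  have h1 : ({n ∈ range x | q * n + r ∈ below A x ∧ q * n + r' ∉ below A x} : Finset ℕ) ⊆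
      below (symmDiff (res A q r) (res A q r')) x ∪
        {n ∈ range x | q * n + r < x ∧ x ≤ q * n + r'} := by
    intro n hn
    rw [mem_filter, mem_below, mem_below, mem_range] at hn
    obtain ⟨hnx, ⟨h2, h3⟩, h4⟩ := hn
    rw [mem_union, mem_below, mem_filter, mem_range]
    by_cases h5 : q * n + r' < x
    · left
      refine ⟨hnx, ?_⟩
      rw [Set.mem_symmDiff]
      left
      exact ⟨h3, fun h6 => h4 ⟨h5, h6⟩⟩
    · right
      exact ⟨hnx, h2, not_lt.1 h5⟩
  have h2 : #{n ∈ range x | q * n + r < x ∧ x ≤ q * n + r'} ≤ 1 := by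
    rw [card_le_one]
    intro a ha b hb
    rw [mem_filter] at ha hb
    by_contra hne
    rcases lt_or_gt_of_ne hne with h | h
    · have h3 : q * (a + 1) ≤ q * b := Nat.mul_le_mul_left q h
      rw [mul_add, mul_one] at h3
      omega
    · have h3 : q * (b + 1) ≤ q * a := Nat.mul_le_mul_left q h
      rw [mul_add, mul_one] at h3
      omega
  exact (card_le_card h1).trans ((card_union_le _ _).trans (Nat.add_le_add_left h2 _))

/-- the main inequality for one modulus -/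
theorem one_modulus {A : Set ℕ} {q k : ℕ} (hq : 0 < q) (hF : NTypesLE A q k) {ε : ℝ}
    (hε : 0 < ε) : ∀ᶠ x : ℕ in atTop, ∃ s : ℝ, 0 ≤ s ∧ (#(below A x) : ℝ) ≤ s + ε * √x ∧
      s ^ 6 ≤ 2 * q * (k : ℝ) ^ 2 * (∑ n ∈ range (2 * x), (repF (below A x) n : ℝ) ^ 2) *
        (cong (below A x) q : ℝ) ^ 2 := by
  classical
  obtain ⟨F, hFk, hFc⟩ := hF
  set R : Finset ℕ := {r ∈ range q | ¬ Null (res A q r)} with hR
  set τ : ℕ → Set ℕ := fun r =>
    if h : ∃ T ∈ F, Null (symmDiff (res A q r) T) then h.choose else ∅ with hτ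
  have hτs : ∀ r ∈ R, τ r ∈ F ∧ Null (symmDiff (res A q r) (τ r)) := by
    intro r hr
    rw [hR, mem_filter, mem_range] at hr
    have h : ∃ T ∈ F, Null (symmDiff (res A q r) T) := (hFc r hr.1).resolve_left hr.2
    simp only [hτ, dif_pos h]
    exact h.choose_spec
  have hpair : ∀ r ∈ R, ∀ r' ∈ R, τ r' = τ r → Null (symmDiff (res A q r) (res A q r')) := by
    intro r hr r' hr' h
    have h1 := (hτs r hr).2
    have h2 := (hτs r' hr').2
    rw [h] at h2
    exact h1.trans h2.symmDiff_comm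
  have hqr : (0 : ℝ) < q := by exact_mod_cast hq
  set η : ℝ := ε / (4 * (q : ℝ) ^ 2) with hη
  have hη0 : 0 < η := by positivity
  have hE1 : ∀ᶠ x : ℕ in atTop, ∀ r ∈ {r ∈ range q | Null (res A q r)},
      (#(below (res A q r) x) : ℝ) ≤ η * √x := by
    rw [Filter.eventually_all_finset]
    intro r hr
    exact (mem_filter.1 hr).2 η hη0
  have hE2 : ∀ᶠ x : ℕ in atTop, ∀ p ∈ {p ∈ R ×ˢ R | τ p.2 = τ p.1},
      (#(below (symmDiff (res A q p.1) (res A q p.2)) x) : ℝ) ≤ η * √x := by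
    rw [Filter.eventually_all_finset]
    intro p hp
    rw [mem_filter, mem_product] at hp
    exact hpair p.1 hp.1.1 p.2 hp.1.2 hp.2 η hη0
  have ht : Tendsto (fun x : ℕ => √(x : ℝ)) atTop atTop :=
    Real.tendsto_sqrt_atTop.comp tendsto_natCast_atTop_atTop
  have hE3 : ∀ᶠ x : ℕ in atTop, (q : ℝ) ^ 2 / (ε / 2) ≤ √(x : ℝ) := ht.eventually_ge_atTop _
  filter_upwards [hE1, hE2, hE3] with x hx1 hx2 hx3
  rw [div_le_iff₀ (by positivity)] at hx3
  set S := below A x with hS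
  set Y : Set ℕ → Finset ℕ := fun T => {n ∈ range x | ∀ r ∈ R, τ r = T → q * n + r ∈ S} with hY
  have hRq : ∀ r ∈ R, r < q := fun r hr => by
    rw [hR, mem_filter, mem_range] at hr
    exact hr.1
  have hYS : ∀ r ∈ R, ∀ n ∈ Y (τ r), q * n + r ∈ S := by
    intro r hr n hn
    simp only [hY, mem_filter] at hn
    exact hn.2 r hr rfl
  have himg : #(R.image τ) ≤ k := by
    refine (card_le_card ?_).trans hFk
    intro T hT
    obtain ⟨r, hr, rfl⟩ := mem_image.1 hT
    exact (hτs r hr).1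
  refine ⟨∑ r ∈ R, (#(Y (τ r)) : ℝ), sum_nonneg fun _ _ => Nat.cast_nonneg _, ?_,
    fibre_energy S (below_subset_range A x) R hRq τ Y hYS k himg⟩
  -- counting
  set f : ℕ → ℕ := fun r => #{n ∈ range x | q * n + r ∈ S} with hf
  have h1 : (#S : ℝ) ≤ ∑ r ∈ range q, (f r : ℝ) := by
    have hmaps : ∀ n ∈ S, n % q ∈ range q := fun n _ => mem_range.2 (Nat.mod_lt n hq)
    have h2 := card_eq_sum_card_fiberwise hmaps
    have h3 : #S ≤ ∑ r ∈ range q, f r := by
      rw [h2]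
      refine sum_le_sum fun r _ => ?_
      refine card_le_card_of_injOn (fun n => n / q) ?_ ?_
      · intro n hn
        rw [mem_coe, mem_filter] at hn
        have h4 : q * (n / q) + r = n := by
          rw [← hn.2]
          exact Nat.div_add_mod n q
        rw [mem_coe, mem_filter, mem_range]
        refine ⟨lt_of_le_of_lt (Nat.div_le_self n q) (mem_below.1 hn.1).1, ?_⟩
        rw [h4]
        exact hn.1
      · intro n hn n' hn' h
        rw [mem_coe, mem_filter] at hn hn'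
        have h4 : n / q = n' / q := h
        rw [← Nat.div_add_mod n q, ← Nat.div_add_mod n' q, h4, hn.2, hn'.2]
    exact_mod_cast h3
  have h2 : ∑ r ∈ range q, (f r : ℝ) =
      ∑ r ∈ R, (f r : ℝ) + ∑ r ∈ {r ∈ range q | Null (res A q r)}, (f r : ℝ) := by
    rw [hR, add_comm, sum_filter_add_sum_filter_not]
  have h3 : ∑ r ∈ {r ∈ range q | Null (res A q r)}, (f r : ℝ) ≤ q * (η * √x) := by
    have h4 : ∀ r ∈ {r ∈ range q | Null (res A q r)}, (f r : ℝ) ≤ η * √x := by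
      intro r hr
      refine le_trans ?_ (hx1 r hr)
      have : f r ≤ #(below (res A q r) x) := by
        refine card_le_card fun n hn => ?_
        rw [mem_filter, mem_range] at hn
        rw [mem_below]
        exact ⟨hn.1, (mem_below.1 hn.2).2⟩
      exact_mod_cast this
    refine (sum_le_sum h4).trans ?_
    rw [sum_const, nsmul_eq_mul]
    refine mul_le_mul_of_nonneg_right ?_ (by positivity)
    have : #{r ∈ range q | Null (res A q r)} ≤ q := by
      simpa using card_filter_le (range q) (fun r => Null (res A q r))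
    exact_mod_cast this
  have h4 : ∀ r ∈ R, (f r : ℝ) ≤ #(Y (τ r)) + q * (η * √x + 1) := by
    intro r hr
    set R' : Finset ℕ := {r' ∈ R | τ r' = τ r} with hR'
    have h5 : ({n ∈ range x | q * n + r ∈ S} : Finset ℕ) ⊆
        Y (τ r) ∪ R'.biUnion fun r' =>
          {n ∈ range x | q * n + r ∈ S ∧ q * n + r' ∉ S} := by
      intro n hn
      rw [mem_filter] at hn
      rw [mem_union]
      by_cases h6 : ∀ r' ∈ R, τ r' = τ r → q * n + r' ∈ S
      · left
        simp only [hY, mem_filter]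
        exact ⟨hn.1, h6⟩
      · right
        push Not at h6
        obtain ⟨r', h7, h8, h9⟩ := h6
        rw [mem_biUnion]
        exact ⟨r', mem_filter.2 ⟨h7, h8⟩, mem_filter.2 ⟨hn.1, hn.2, h9⟩⟩
    have h6 : f r ≤ #(Y (τ r)) + ∑ r' ∈ R',
        #{n ∈ range x | q * n + r ∈ S ∧ q * n + r' ∉ S} :=
      (card_le_card h5).trans ((card_union_le _ _).trans (Nat.add_le_add_left card_biUnion_le _))
    have h7 : (f r : ℝ) ≤ #(Y (τ r)) + ∑ r' ∈ R',
        (#{n ∈ range x | q * n + r ∈ S ∧ q * n + r' ∉ S} : ℝ) := by exact_mod_cast h6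
    have h8 : ∀ r' ∈ R', (#{n ∈ range x | q * n + r ∈ S ∧ q * n + r' ∉ S} : ℝ) ≤
        η * √x + 1 := by
      intro r' hr'
      rw [hR', mem_filter] at hr'
      have h9 := fibre_diff A (q := q) (r := r) (r' := r') (x := x) (hRq r' hr'.1)
      have h10 := hx2 (r, r') (mem_filter.2 ⟨mem_product.2 ⟨hr, hr'.1⟩, hr'.2⟩)
      have h11 : (#{n ∈ range x | q * n + r ∈ S ∧ q * n + r' ∉ S} : ℝ) ≤
          #(below (symmDiff (res A q r) (res A q r')) x) + 1 := by
        rw [hS]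
        exact_mod_cast h9
      exact h11.trans (by linarith)
    have h9 := sum_le_sum h8
    rw [sum_const, nsmul_eq_mul] at h9
    have h10 : (#R' : ℝ) ≤ q := by
      have h11 : #R' ≤ #R := card_filter_le _ _
      have h12 : #R ≤ q := by
        rw [hR]
        simpa using card_filter_le (range q) (fun r => ¬ Null (res A q r))
      exact_mod_cast h11.trans h12
    have h11 : (#R' : ℝ) * (η * √x + 1) ≤ q * (η * √x + 1) :=
      mul_le_mul_of_nonneg_right h10 (by positivity)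
    linarith
  have h5 := sum_le_sum h4
  rw [sum_add_distrib, sum_const, nsmul_eq_mul] at h5
  have h6 : (#R : ℝ) ≤ q := by
    have h12 : #R ≤ q := by
      rw [hR]
      simpa using card_filter_le (range q) (fun r => ¬ Null (res A q r))
    exact_mod_cast h12
  have h7 : (#R : ℝ) * (q * (η * √x + 1)) ≤ q * (q * (η * √x + 1)) :=
    mul_le_mul_of_nonneg_right h6 (by positivity)
  have h8 : q * (q * (η * √x + 1)) = ε / 4 * √x + (q : ℝ) ^ 2 := by
    rw [hη]
    field_simp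
  have h9 : q * (η * √x) ≤ ε / 4 * √x := by
    have h10 : (q : ℝ) * η ≤ ε / 4 := by
      rw [hη]
      have h11 : (q : ℝ) * (ε / (4 * (q : ℝ) ^ 2)) = ε / 4 / q := by
        field_simp
      rw [h11]
      refine div_le_self (by positivity) ?_
      exact_mod_cast hq
    calc q * (η * √x) = q * η * √x := by ring
      _ ≤ ε / 4 * √x := mul_le_mul_of_nonneg_right h10 (Real.sqrt_nonneg _)
  linarith

theorem finish {δ K' x E T : ℝ} (J : ℕ) (c m : ℕ → ℕ) (w : ℕ → ℝ) (hδ : 0 < δ) (hx : 0 < x)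
    (hK : 0 < K') (hE0 : 0 ≤ E) (hE : E ≤ 2 * K' * x) (hT : 0 ≤ T) (hT2 : δ ^ 2 * x ≤ T ^ 2)
    (hch : ∑ j ∈ range (J + 1), (m j : ℝ) * w j ^ 2 ≤ 21 * x * E)
    (hs : ∀ j ∈ range (J + 1), ∃ s : ℝ, T / 2 ≤ s ∧
      s ^ 6 ≤ 2 * m j * (c j : ℝ) ^ 2 * E * w j ^ 2) :
    ∑ j ∈ range J, 1 / (c j : ℝ) ^ 2 ≤ 10752 * K' ^ 2 / δ ^ 6 := by
  have hDlow : δ ^ 6 * x ^ 3 / 64 ≤ (T / 2) ^ 6 := by
    have h1 : (δ ^ 2 * x) ^ 3 ≤ (T ^ 2) ^ 3 := pow_le_pow_left₀ (by positivity) hT2 3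
    have h2 : (T / 2) ^ 6 = (T ^ 2) ^ 3 / 64 := by ring
    rw [h2]
    have h3 : δ ^ 6 * x ^ 3 / 64 = (δ ^ 2 * x) ^ 3 / 64 := by ring
    rw [h3]
    linarith
  have hterm : ∀ j ∈ range (J + 1), (T / 2) ^ 6 * (1 / (c j : ℝ) ^ 2) ≤
      2 * E * ((m j : ℝ) * w j ^ 2) := by
    intro j hj
    obtain ⟨s, hs1, hs2⟩ := hs j hj
    rcases Nat.eq_zero_or_pos (c j) with h0 | h0
    · rw [h0, Nat.cast_zero, zero_pow two_ne_zero, div_zero, mul_zero]
      exact mul_nonneg (by linarith) (mul_nonneg (Nat.cast_nonneg _) (sq_nonneg _))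
    · have h0' : (0 : ℝ) < c j := by exact_mod_cast h0
      rw [mul_one_div, div_le_iff₀ (by positivity)]
      calc (T / 2) ^ 6 ≤ s ^ 6 := pow_le_pow_left₀ (by linarith) hs1 6
        _ ≤ _ := hs2
        _ = _ := by ring
  have hsum : (T / 2) ^ 6 * ∑ j ∈ range (J + 1), 1 / (c j : ℝ) ^ 2 ≤ 2 * E * (21 * x * E) := by
    rw [mul_sum]
    refine (sum_le_sum hterm).trans ?_
    rw [← mul_sum]
    exact mul_le_mul_of_nonneg_left hch (by linarith)
  have h4 : ∑ j ∈ range J, 1 / (c j : ℝ) ^ 2 ≤ ∑ j ∈ range (J + 1), 1 / (c j : ℝ) ^ 2 := by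
    rw [sum_range_succ]
    have : 0 ≤ 1 / (c J : ℝ) ^ 2 := by positivity
    linarith
  refine h4.trans ?_
  have hSg0 : 0 ≤ ∑ j ∈ range (J + 1), 1 / (c j : ℝ) ^ 2 := sum_nonneg fun _ _ => by positivity
  generalize ∑ j ∈ range (J + 1), 1 / (c j : ℝ) ^ 2 = Sg at hsum hSg0 ⊢
  rw [le_div_iff₀ (by positivity)]
  have h5 : δ ^ 6 * x ^ 3 / 64 * Sg ≤ 2 * (2 * K' * x) * (21 * x * (2 * K' * x)) := by
    calc δ ^ 6 * x ^ 3 / 64 * Sg ≤ (T / 2) ^ 6 * Sg := mul_le_mul_of_nonneg_right hDlow hSg0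
      _ ≤ 2 * E * (21 * x * E) := hsum
      _ ≤ _ := by gcongr
  have h6 : x ^ 3 * (Sg * δ ^ 6) ≤ x ^ 3 * (10752 * K' ^ 2) := by
    have h7 : x ^ 3 * (Sg * δ ^ 6) = 64 * (δ ^ 6 * x ^ 3 / 64 * Sg) := by ring
    have h8 : 64 * (2 * (2 * K' * x) * (21 * x * (2 * K' * x))) =
        x ^ 3 * (10752 * K' ^ 2) := by ring
    rw [h7, ← h8]
    linarith
  exact le_of_mul_le_mul_left h6 (by positivity)

/-- **Mean square version of types.** -/
theorem types_sum_le {A : Set ℕ} (hA : ¬ Null A) {K : ℝ}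
    (hK : ∀ᶠ x : ℕ in atTop, ∑ n ∈ range x, (rep A n : ℝ) ^ 2 ≤ K * x) :
    ∃ C : ℝ, ∀ m : ℕ → ℕ, Chain m → ∀ c : ℕ → ℕ, (∀ j, NTypesLE A (m j) (c j)) → ∀ J : ℕ,
      ∑ j ∈ range J, 1 / (c j : ℝ) ^ 2 ≤ C := by
  classical
  set K' : ℝ := max K 1 with hK'
  have hK0 : 0 < K' := lt_of_lt_of_le one_pos (le_max_right _ _)
  obtain ⟨δ, hδ, hfx⟩ := not_null_iff.1 hA
  refine ⟨10752 * K' ^ 2 / δ ^ 6, fun m hm c hc J => ?_⟩
  have hE1 : ∀ᶠ x : ℕ in atTop, ∀ j ∈ range (J + 1), ∃ s : ℝ, 0 ≤ s ∧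
      (#(below A x) : ℝ) ≤ s + δ / 2 * √x ∧
      s ^ 6 ≤ 2 * m j * (c j : ℝ) ^ 2 * (∑ n ∈ range (2 * x), (repF (below A x) n : ℝ) ^ 2) *
        (cong (below A x) (m j) : ℝ) ^ 2 := by
    rw [Filter.eventually_all_finset]
    intro j _
    exact one_modulus (hm.pos' j) (hc j) (by positivity)
  have ht : Tendsto (fun x : ℕ => 2 * x) atTop atTop :=
    tendsto_atTop_mono (fun x => by show x ≤ 2 * x; omega) tendsto_id
  obtain ⟨x, hxT, hx1, hx2, hx3, hx4⟩ := (hfx.and_eventually (hE1.and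
    ((eventually_ge_atTop (m J)).and
    ((ht.eventually hK).and (eventually_ge_atTop 1))))).exists
  set S := below A x with hS
  have hSx : S ⊆ range x := below_subset_range A x
  have hxr : (1 : ℝ) ≤ x := by exact_mod_cast hx4
  set E : ℝ := ∑ n ∈ range (2 * x), (repF S n : ℝ) ^ 2 with hEdef
  have hE0 : 0 ≤ E := sum_nonneg fun _ _ => sq_nonneg _
  have hE : E ≤ 2 * K' * x := by
    calc E ≤ ∑ n ∈ range (2 * x), (rep A n : ℝ) ^ 2 := by
          refine Finset.sum_le_sum fun n _ => ?_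
          have : (repF S n : ℝ) ≤ rep A n := by exact_mod_cast repF_below_le A x n
          gcongr
      _ ≤ K * ((2 * x : ℕ) : ℝ) := hx3
      _ ≤ K' * ((2 * x : ℕ) : ℝ) := by
          gcongr
          exact le_max_left _ _
      _ = 2 * K' * x := by push_cast; ring
  have hT2 : δ ^ 2 * x ≤ (#S : ℝ) ^ 2 := by
    have h1 : (δ * √x) ^ 2 ≤ (#S : ℝ) ^ 2 := by
      gcongr
    rwa [mul_pow, Real.sq_sqrt (by positivity)] at h1
  have hch : ∑ j ∈ range (J + 1), (m j : ℝ) * (cong S (m j) : ℝ) ^ 2 ≤ 21 * x * E :=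
    chain_energy S hSx hm hx2
  exact finish J c m (fun j => (cong S (m j) : ℝ)) hδ (lt_of_lt_of_le one_pos hxr) hK0 hE0 hE
    (Nat.cast_nonneg _) hT2 hch fun j hj => by
      obtain ⟨s, hs0, hs1, hs2⟩ := hx1 j hj
      exact ⟨s, by linarith, hs2⟩

/-- **Mean square version of types**, summability. -/
theorem types_summable {A : Set ℕ} (hA : ¬ Null A) {K : ℝ}
    (hK : ∀ᶠ x : ℕ in atTop, ∑ n ∈ range x, (rep A n : ℝ) ^ 2 ≤ K * x) {m c : ℕ → ℕ}
    (hm : Chain m) (hc : ∀ j, NTypesLE A (m j) (c j)) :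
    Summable (fun j => 1 / (c j : ℝ) ^ 2) := by
  obtain ⟨C, hC⟩ := types_sum_le hA hK
  exact summable_of_sum_range_le (fun j => by positivity) (hC m hm c hc)

end Pool.Agent.Helper78.RC
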