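import Pool.Agent.Helper3.RC.Chain

/-!
The energy of a finite set with few different fibres modulo `m`.
-/

set_option autoImplicit false

open Finset Filter

namespace Pool.Agent.Helper78.RC

open Pool.Agent.Helper25.RC

/-- Cauchy-Schwarz for the fibres of a map -/
theorem cs_key {ι : Type*} (I : Finset ι) (f : ι → ℕ) (M : ℕ) (hf : ∀ i ∈ I, f i < M) :
    (#I : ℝ) ^ 2 ≤ M * ∑ i ∈ I, (#{j ∈ I | f j = f i} : ℝ) := by
  classical
  have hmaps : ∀ i ∈ I, f i ∈ range M := fun i hi => mem_range.2 (hf i hi)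
  have h1 : (#I : ℝ) = ∑ u ∈ range M, (#{i ∈ I | f i = u} : ℝ) := by
    exact_mod_cast card_eq_sum_card_fiberwise hmaps
  have h2 : ∑ i ∈ I, (#{j ∈ I | f j = f i} : ℝ) = ∑ u ∈ range M, (#{i ∈ I | f i = u} : ℝ) ^ 2 := by
    rw [← sum_fiberwise_of_maps_to hmaps]
    refine sum_congr rfl fun u _ => ?_
    rw [sum_congr rfl (g := fun _ => (#{i ∈ I | f i = u} : ℝ)), sum_const, nsmul_eq_mul, sq]
    intro i hi
    rw [(mem_filter.1 hi).2]
  rw [h1, h2]
  calc (∑ u ∈ range M, (#{i ∈ I | f i = u} : ℝ)) ^ 2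
      ≤ #(range M) * ∑ u ∈ range M, (#{i ∈ I | f i = u} : ℝ) ^ 2 := sq_sum_le_card_mul_sum_sq
    _ = _ := by rw [card_range]

/-- the inequality of the arithmetic and the geometric mean for three numbers -/
theorem amgm3 {x y z : ℝ} (hx : 0 ≤ x) (hy : 0 ≤ y) (hz : 0 ≤ z) :
    27 * (x * y * z) ≤ (x + y + z) ^ 3 := by
  nlinarith [mul_nonneg hx (sq_nonneg (y - z)), mul_nonneg hy (sq_nonneg (x - z)),
    mul_nonneg hz (sq_nonneg (x - y)), mul_nonneg (add_nonneg (add_nonneg hx hy) hz)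
      (add_nonneg (add_nonneg (sq_nonneg (x - y)) (sq_nonneg (y - z))) (sq_nonneg (x - z)))]

/-- Hoelder's inequality with three factors, one of them constant -/
theorem hoelder3 {κ : Type*} (K : Finset κ) (c : ℝ) (hc : (#K : ℝ) ≤ c) (N y : κ → ℝ)
    (hN : ∀ k ∈ K, 0 ≤ N k) (hy : ∀ k ∈ K, 0 ≤ y k) :
    (∑ k ∈ K, N k * y k) ^ 3 ≤ c * (∑ k ∈ K, N k ^ 2 * y k) * ∑ k ∈ K, N k * y k ^ 2 := by
  classical
  set s : ℝ := ∑ k ∈ K, N k * y k with hs
  set U : ℝ := ∑ k ∈ K, N k ^ 2 * y k with hU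
  set V : ℝ := ∑ k ∈ K, N k * y k ^ 2 with hV
  have hs0 : 0 ≤ s := sum_nonneg fun k hk => mul_nonneg (hN k hk) (hy k hk)
  have hU0 : 0 ≤ U := sum_nonneg fun k hk => mul_nonneg (sq_nonneg _) (hy k hk)
  have hV0 : 0 ≤ V := sum_nonneg fun k hk => mul_nonneg (hN k hk) (sq_nonneg _)
  have hc0 : 0 ≤ c := le_trans (Nat.cast_nonneg _) hc
  rcases hs0.eq_or_lt with h0 | hspos
  · rw [← h0]
    simp only [ne_eq, OfNat.ofNat_ne_zero, not_false_eq_true, zero_pow]
    positivity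
  -- there is a term which is not zero
  obtain ⟨k0, hk0, hk0p⟩ : ∃ k ∈ K, 0 < N k * y k := by
    by_contra hcon
    push Not at hcon
    have := sum_nonpos hcon
    rw [← hs] at this
    linarith
  have hNk : 0 < N k0 := lt_of_le_of_ne (hN k0 hk0) fun h => by
    rw [← h, zero_mul] at hk0p
    exact lt_irrefl _ hk0p
  have hyk : 0 < y k0 := lt_of_le_of_ne (hy k0 hk0) fun h => by
    rw [← h, mul_zero] at hk0p
    exact lt_irrefl _ hk0p
  have hUpos : 0 < U := lt_of_lt_of_le (by positivity)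
    (single_le_sum (f := fun k => N k ^ 2 * y k)
      (fun k hk => mul_nonneg (sq_nonneg _) (hy k hk)) hk0)
  have hVpos : 0 < V := lt_of_lt_of_le (by positivity)
    (single_le_sum (f := fun k => N k * y k ^ 2)
      (fun k hk => mul_nonneg (hN k hk) (sq_nonneg _)) hk0)
  have hcpos : 0 < c := lt_of_lt_of_le (by exact_mod_cast card_pos.2 ⟨k0, hk0⟩) hc
  by_contra hcon
  rw [not_le] at hcon
  have hp : 1 < s ^ 3 / (c * U * V) := by
    rw [one_lt_div (by positivity)]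
    exact hcon
  have hterm : ∀ k ∈ K, 3 * (N k * y k) < s / c + N k ^ 2 * y k * (s / U) +
      N k * y k ^ 2 * (s / V) := by
    intro k hk
    have hNk := hN k hk
    have hyk := hy k hk
    have h1 := amgm3 (x := s / c) (y := N k ^ 2 * y k * (s / U)) (z := N k * y k ^ 2 * (s / V))
      (by positivity) (by positivity) (by positivity)
    have h2 : s / c * (N k ^ 2 * y k * (s / U)) * (N k * y k ^ 2 * (s / V)) =
        (N k * y k) ^ 3 * (s ^ 3 / (c * U * V)) := by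
      field_simp
    rw [h2] at h1
    have hW0 : 0 < s / c + N k ^ 2 * y k * (s / U) + N k * y k ^ 2 * (s / V) := by positivity
    rcases (mul_nonneg hNk hyk).eq_or_lt with h3 | h3
    · rw [← h3]
      linarith
    · have h4 : (3 * (N k * y k)) ^ 3 <
          (s / c + N k ^ 2 * y k * (s / U) + N k * y k ^ 2 * (s / V)) ^ 3 := by
        refine lt_of_lt_of_le ?_ h1
        have h5 : 0 < (N k * y k) ^ 3 := by positivity
        nlinarith
      exact lt_of_pow_lt_pow_left₀ 3 hW0.le h4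
  have hsum : ∑ k ∈ K, 3 * (N k * y k) < ∑ k ∈ K, (s / c + N k ^ 2 * y k * (s / U) +
      N k * y k ^ 2 * (s / V)) := sum_lt_sum_of_nonempty ⟨k0, hk0⟩ hterm
  rw [← mul_sum, sum_add_distrib, sum_add_distrib, ← sum_mul, ← sum_mul, sum_const, nsmul_eq_mul,
    ← hs, ← hU, ← hV] at hsum
  have h6 : (#K : ℝ) * (s / c) ≤ s := by
    calc (#K : ℝ) * (s / c) ≤ c * (s / c) := by gcongr
      _ = s := by field_simp
  have h7 : U * (s / U) = s := by field_simp
  have h8 : V * (s / V) = s := by field_simp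
  linarith

/-- the energy of a set with few different fibres -/
theorem fibre_energy_aux {κ : Type*} [DecidableEq κ] (S : Finset ℕ) {x m : ℕ} (hS : S ⊆ range x)
    (R : Finset ℕ) (hR : ∀ r ∈ R, r < m) (τ : ℕ → κ) (Y : κ → Finset ℕ)
    (hY : ∀ r ∈ R, ∀ n ∈ Y (τ r), m * n + r ∈ S) :
    (∑ k ∈ R.image τ, (#{r ∈ R | τ r = k} : ℝ) ^ 2 * (#(Y k) : ℝ)) ^ 2 ≤
      2 * m * ∑ n ∈ range (2 * x), (repF S n : ℝ) ^ 2 := by
  classical
  set E : ℝ := ∑ n ∈ range (2 * x), (repF S n : ℝ) ^ 2 with hE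
  set K : Finset κ := R.image τ with hK
  set N : κ → ℝ := fun k => (#{r ∈ R | τ r = k} : ℝ) with hN
  set y : κ → ℝ := fun k => (#(Y k) : ℝ) with hy
  have hmaps : ∀ r ∈ R, τ r ∈ K := fun r hr => mem_image_of_mem τ hr
  have hN0 : ∀ k, 0 ≤ N k := fun k => Nat.cast_nonneg _
  have hy0 : ∀ k, 0 ≤ y k := fun k => Nat.cast_nonneg _
  -- pairs of fibres
  set P : κ × κ → Finset (ℕ × ℕ) := fun q => {p ∈ R ×ˢ R | (τ p.1, τ p.2) = q} with hP
  set W : ℕ × ℕ → ℝ := fun p =>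
    (#{p' ∈ P (τ p.1, τ p.2) | p'.1 + p'.2 = p.1 + p.2} : ℝ) with hW
  have hPcard : ∀ k k', (#(P (k, k')) : ℝ) = N k * N k' := by
    intro k k'
    have h1 : P (k, k') = {r ∈ R | τ r = k} ×ˢ {r ∈ R | τ r = k'} := by
      ext ⟨a, b⟩
      simp only [hP, mem_filter, mem_product, Prod.mk.injEq]
      tauto
    rw [h1, card_product]
    push_cast
    rfl
  have h1 : ∑ p ∈ R ×ˢ R, y (τ p.1) * y (τ p.2) * W p ≤ E := by
    have h2 : E = ∑ u ∈ S ×ˢ S, (repF S (u.1 + u.2) : ℝ) := by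
      rw [sum_add S hS (fun n => (repF S n : ℝ)), hE]
      exact sum_congr rfl fun n _ => sq _
    set I : Finset ((_ : ℕ × ℕ) × (ℕ × ℕ)) :=
      (R ×ˢ R).sigma fun p => Y (τ p.1) ×ˢ Y (τ p.2) with hI
    set g : ((_ : ℕ × ℕ) × (ℕ × ℕ)) → ℕ × ℕ :=
      fun i => (m * i.2.1 + i.1.1, m * i.2.2 + i.1.2) with hg
    have hinj : Set.InjOn g (I : Set ((_ : ℕ × ℕ) × (ℕ × ℕ))) := by
      rintro ⟨⟨r, r'⟩, n, n'⟩ hi ⟨⟨r1, r1'⟩, n1, n1'⟩ hi1 h
      rw [mem_coe, hI, mem_sigma, mem_product, mem_product] at hi hi1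
      simp only [hg, Prod.mk.injEq] at h
      have hr := hR r hi.1.1
      have hr' := hR r' hi.1.2
      have hr1 := hR r1 hi1.1.1
      have hr1' := hR r1' hi1.1.2
      have hm : 0 < m := by omega
      have h3 : r = r1 := by
        have h4 := congrArg (· % m) h.1
        simp only [Nat.mul_add_mod] at h4
        rwa [Nat.mod_eq_of_lt hr, Nat.mod_eq_of_lt hr1] at h4
      have h3' : r' = r1' := by
        have h4 := congrArg (· % m) h.2
        simp only [Nat.mul_add_mod] at h4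
        rwa [Nat.mod_eq_of_lt hr', Nat.mod_eq_of_lt hr1'] at h4
      subst h3
      subst h3'
      have h5 : n = n1 := Nat.eq_of_mul_eq_mul_left hm (by omega)
      have h6 : n' = n1' := Nat.eq_of_mul_eq_mul_left hm (by omega)
      rw [h5, h6]
    have hsub : I.image g ⊆ S ×ˢ S := by
      intro u hu
      obtain ⟨⟨⟨r, r'⟩, n, n'⟩, hi, rfl⟩ := mem_image.1 hu
      rw [hI, mem_sigma, mem_product, mem_product] at hi
      rw [mem_product]
      exact ⟨hY r hi.1.1 n hi.2.1, hY r' hi.1.2 n' hi.2.2⟩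
    have hrep : ∀ i ∈ I, W i.1 ≤ (repF S ((g i).1 + (g i).2) : ℝ) := by
      rintro ⟨⟨r, r'⟩, n, n'⟩ hi
      rw [hI, mem_sigma, mem_product, mem_product] at hi
      simp only [hW, hg]
      norm_cast
      unfold repF
      refine card_le_card_of_injOn (fun p => (m * n + p.1, m * n' + p.2)) ?_ ?_
      · rintro ⟨a, b⟩ hp
        rw [mem_coe, mem_filter, hP, mem_filter, mem_product] at hp
        obtain ⟨⟨⟨ha, hb⟩, hab⟩, hsum⟩ := hp
        simp only [Prod.mk.injEq] at hab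
        rw [mem_coe, mem_filter, mem_product]
        refine ⟨⟨hY a ha n ?_, hY b hb n' ?_⟩, ?_⟩
        · rw [hab.1]
          exact hi.2.1
        · rw [hab.2]
          exact hi.2.2
        · show m * n + a + (m * n' + b) = m * n + r + (m * n' + r')
          have : a + b = r + r' := hsum
          omega
      · rintro ⟨a, b⟩ _ ⟨a', b'⟩ _ h
        simp only [Prod.mk.injEq, add_right_inj] at h
        rw [h.1, h.2]
    calc ∑ p ∈ R ×ˢ R, y (τ p.1) * y (τ p.2) * W p = ∑ i ∈ I, W i.1 := by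
          rw [hI, sum_sigma]
          refine sum_congr rfl fun p _ => ?_
          show y (τ p.1) * y (τ p.2) * W p = ∑ s ∈ Y (τ p.1) ×ˢ Y (τ p.2), W p
          rw [sum_const, nsmul_eq_mul, card_product]
          push_cast
          rfl
      _ ≤ ∑ i ∈ I, (repF S ((g i).1 + (g i).2) : ℝ) := sum_le_sum hrep
      _ = ∑ u ∈ I.image g, (repF S (u.1 + u.2) : ℝ) := (sum_image (f := fun u : ℕ × ℕ => (repF S (u.1 + u.2) : ℝ)) hinj).symm
      _ ≤ ∑ u ∈ S ×ˢ S, (repF S (u.1 + u.2) : ℝ) :=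
          sum_le_sum_of_subset_of_nonneg hsub fun _ _ _ => Nat.cast_nonneg _
      _ = E := h2.symm
  have h2 : ∑ p ∈ R ×ˢ R, y (τ p.1) * y (τ p.2) * W p =
      ∑ q ∈ K ×ˢ K, ∑ p ∈ P q, y q.1 * y q.2 *
        (#{p' ∈ P q | p'.1 + p'.2 = p.1 + p.2} : ℝ) := by
    have hmaps2 : ∀ p ∈ R ×ˢ R, (τ p.1, τ p.2) ∈ K ×ˢ K := fun p hp => by
      rw [mem_product] at hp ⊢
      exact ⟨hmaps _ hp.1, hmaps _ hp.2⟩
    rw [← sum_fiberwise_of_maps_to hmaps2]
    refine sum_congr rfl fun q _ => ?_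
    refine sum_congr rfl fun p hp => ?_
    have h3 := (mem_filter.1 hp).2
    simp only [hW]
    rw [h3, ← h3]
  have h3 : ∀ q ∈ K ×ˢ K, (N q.1 ^ 2 * y q.1) * (N q.2 ^ 2 * y q.2) ≤
      2 * m * ∑ p ∈ P q, y q.1 * y q.2 * (#{p' ∈ P q | p'.1 + p'.2 = p.1 + p.2} : ℝ) := by
    intro q _
    have h4 := cs_key (P q) (fun p => p.1 + p.2) (2 * m) (by
      intro p hp
      have h5 := (mem_product.1 (mem_filter.1 hp).1)
      have h6 := hR _ h5.1
      have h7 := hR _ h5.2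
      show p.1 + p.2 < 2 * m
      omega)
    have h8 : (#(P q) : ℝ) = N q.1 * N q.2 := hPcard q.1 q.2
    rw [h8] at h4
    rw [← mul_sum]
    have h9 : 0 ≤ y q.1 * y q.2 := mul_nonneg (hy0 _) (hy0 _)
    calc (N q.1 ^ 2 * y q.1) * (N q.2 ^ 2 * y q.2) = (N q.1 * N q.2) ^ 2 * (y q.1 * y q.2) := by
          ring
      _ ≤ ((2 * m : ℕ) * ∑ p ∈ P q, (#{p' ∈ P q | p'.1 + p'.2 = p.1 + p.2} : ℝ)) *
          (y q.1 * y q.2) := mul_le_mul_of_nonneg_right h4 h9
      _ = _ := by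
          push_cast
          ring
  calc (∑ k ∈ K, N k ^ 2 * y k) ^ 2
      = ∑ q ∈ K ×ˢ K, (N q.1 ^ 2 * y q.1) * (N q.2 ^ 2 * y q.2) := by
        rw [sq, sum_mul_sum, sum_product]
    _ ≤ ∑ q ∈ K ×ˢ K, 2 * m * ∑ p ∈ P q, y q.1 * y q.2 *
        (#{p' ∈ P q | p'.1 + p'.2 = p.1 + p.2} : ℝ) := sum_le_sum h3
    _ = 2 * m * ∑ p ∈ R ×ˢ R, y (τ p.1) * y (τ p.2) * W p := by
        rw [← mul_sum, h2]
    _ ≤ 2 * m * E := mul_le_mul_of_nonneg_left h1 (by positivity)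

theorem final_arith {s U V c m E G : ℝ} (hs0 : 0 ≤ s) (hV0 : 0 ≤ V) (hm : 0 ≤ m) (hE : 0 ≤ E)
    (hH : s ^ 3 ≤ c * U * V) (hU : U ^ 2 ≤ 2 * m * E) (hV : V ≤ G) :
    s ^ 6 ≤ 2 * m * c ^ 2 * E * G ^ 2 := by
  calc s ^ 6 = (s ^ 3) ^ 2 := by ring
    _ ≤ (c * U * V) ^ 2 := pow_le_pow_left₀ (by positivity) hH 2
    _ = c ^ 2 * U ^ 2 * V ^ 2 := by ring
    _ ≤ c ^ 2 * (2 * m * E) * G ^ 2 := by
        refine mul_le_mul (mul_le_mul_of_nonneg_left hU (by positivity))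
          (pow_le_pow_left₀ hV0 hV 2) (by positivity) (by positivity)
    _ = _ := by ring

/-- **Few different fibres.** If all `m n + r` with `r ∈ R`, `n ∈ Y (τ r)` are in `S`, where `τ`
takes at most `c` values on `R`, then the number `s` of these elements satisfies
`s ^ 6 ≤ 2 m c ^ 2 E (cong S m) ^ 2`. -/
theorem fibre_energy {κ : Type*} [DecidableEq κ] (S : Finset ℕ) {x m : ℕ} (hS : S ⊆ range x)
    (R : Finset ℕ) (hR : ∀ r ∈ R, r < m) (τ : ℕ → κ) (Y : κ → Finset ℕ)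
    (hY : ∀ r ∈ R, ∀ n ∈ Y (τ r), m * n + r ∈ S) (c : ℕ) (hc : #(R.image τ) ≤ c) :
    (∑ r ∈ R, (#(Y (τ r)) : ℝ)) ^ 6 ≤
      2 * m * (c : ℝ) ^ 2 * (∑ n ∈ range (2 * x), (repF S n : ℝ) ^ 2) * (cong S m : ℝ) ^ 2 := by
  classical
  set E : ℝ := ∑ n ∈ range (2 * x), (repF S n : ℝ) ^ 2 with hE
  set K : Finset κ := R.image τ with hK
  set N : κ → ℝ := fun k => (#{r ∈ R | τ r = k} : ℝ) with hN
  set y : κ → ℝ := fun k => (#(Y k) : ℝ) with hy
  have hmaps : ∀ r ∈ R, τ r ∈ K := fun r hr => mem_image_of_mem τ hr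
  have hN0 : ∀ k, 0 ≤ N k := fun k => Nat.cast_nonneg _
  have hy0 : ∀ k, 0 ≤ y k := fun k => Nat.cast_nonneg _
  -- the sum
  have hs : ∑ r ∈ R, (#(Y (τ r)) : ℝ) = ∑ k ∈ K, N k * y k := by
    rw [← sum_fiberwise_of_maps_to hmaps]
    refine sum_congr rfl fun k _ => ?_
    rw [sum_congr rfl (g := fun _ => y k), sum_const, nsmul_eq_mul]
    intro r hr
    rw [(mem_filter.1 hr).2]
  -- congruent pairs
  have hV : ∑ k ∈ K, N k * y k ^ 2 ≤ (cong S m : ℝ) := by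
    have h1 : ∑ k ∈ K, N k * y k ^ 2 = ∑ r ∈ R, (#(Y (τ r) ×ˢ Y (τ r)) : ℝ) := by
      rw [← sum_fiberwise_of_maps_to hmaps]
      refine sum_congr rfl fun k _ => ?_
      rw [sum_congr rfl (g := fun _ => y k ^ 2), sum_const, nsmul_eq_mul]
      intro r hr
      rw [(mem_filter.1 hr).2, card_product]
      push_cast
      rw [sq]
    rw [h1]
    have h2 : #(R.sigma fun r => Y (τ r) ×ˢ Y (τ r)) ≤ cong S m := by
      unfold cong
      refine card_le_card_of_injOn (fun i => (m * i.2.1 + i.1, m * i.2.2 + i.1)) ?_ ?_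
      · rintro ⟨r, n, n'⟩ hi
        simp only [coe_sigma, Set.mem_sigma_iff, mem_coe, mem_product] at hi
        obtain ⟨hr, hn, hn'⟩ := hi
        simp only [coe_filter, mem_product, Set.mem_ofPred_eq]
        refine ⟨⟨hY r hr n hn, hY r hr n' hn'⟩, ?_⟩
        show (m * n + r) % m = (m * n' + r) % m
        rw [Nat.mul_add_mod, Nat.mul_add_mod]
      · rintro ⟨r, n, n'⟩ hi ⟨r1, n1, n1'⟩ hi1 h
        simp only [coe_sigma, Set.mem_sigma_iff, mem_coe, mem_product] at hi hi1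
        simp only [Prod.mk.injEq] at h
        have hr := hR r hi.1
        have hr1 := hR r1 hi1.1
        have hm : 0 < m := by omega
        have h3 : r = r1 := by
          have h4 := congrArg (· % m) h.1
          simp only [Nat.mul_add_mod] at h4
          rwa [Nat.mod_eq_of_lt hr, Nat.mod_eq_of_lt hr1] at h4
        subst h3
        have h5 : n = n1 := Nat.eq_of_mul_eq_mul_left hm (by omega)
        have h6 : n' = n1' := Nat.eq_of_mul_eq_mul_left hm (by omega)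
        rw [h5, h6]
    rw [card_sigma] at h2
    exact_mod_cast h2
  -- the energy
  have hU : (∑ k ∈ K, N k ^ 2 * y k) ^ 2 ≤ 2 * m * E := fibre_energy_aux S hS R hR τ Y hY
  -- conclusion
  have hH := hoelder3 K (c : ℝ) (Nat.cast_le.2 hc) N y (fun k _ => hN0 k) (fun k _ => hy0 k)
  rw [hs]
  exact final_arith (sum_nonneg fun k _ => mul_nonneg (hN0 k) (hy0 k))
    (sum_nonneg fun k _ => mul_nonneg (hN0 k) (sq_nonneg _)) (Nat.cast_nonneg m)
    (sum_nonneg fun _ _ => sq_nonneg _) hH hU hV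

end Pool.Agent.Helper78.RC
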